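import Pool.Agent.Y331.EP.Trans

/-!
# MP_5c499f_an: factors of the same entropy

Let `f` be a `C¹` Anosov diffeomorphism of a closed connected manifold `M` with global product
structure (for instance a hyperbolic automorphism of an infranilmanifold), and let `h` be a
semiconjugacy from `f` onto an expansive homeomorphism `g` of a closed connected topological
manifold `M'` (for instance an arbitrary Anosov diffeomorphism of `M'`), with `dim M' ≤ dim M`.
Then `g` is a finite quotient of `f` (`h` is a finite covering map, and `g` has global product
structure) if and only if `f` and `g` have the same entropy, or comparable numbers of periodic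
points along a sequence of periods, or `h` separates homoclinic points.

From the starting files: `Pool.Agent.Y331.EP`.
-/

set_option autoImplicit false

open scoped Manifold ContDiff Topology
open Set Filter

namespace Pool.Agent.Results.MP_5c499f_an.EntropyFactors

open Pool.Agent.H721R2 Pool.Agent.H789R2.AN Pool.Agent.TH289 Pool.Agent.TH289.K
open Pool.Agent.Y331.EP

/-- A factor of a topologically transitive map is topologically transitive. -/
theorem factor_transitive {X Y : Type*} [TopologicalSpace X] [TopologicalSpace Y] {f : X → X}
    {g : Y → Y} {h : X → Y} (hc : Continuous h) (hs : Function.Surjective h)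
    (hfg : ∀ x, h (f x) = g (h x)) (hT : TopTransitive f) : TopTransitive g := by
  intro U V hU hUn hV hVn
  obtain ⟨n, y, ⟨x, hx, rfl⟩, hy⟩ := hT (h ⁻¹' U) (h ⁻¹' V) (hU.preimage hc)
    (hUn.preimage hs) (hV.preimage hc) (hVn.preimage hs)
  refine ⟨n, h (f^[n] x), ⟨h x, hx, ?_⟩, hy⟩
  exact ((show Function.Semiconj h f g from hfg).iterate_right n x).symm

/-- **Expansive factors of the same entropy.**
Let `f` be a `C¹` Anosov diffeomorphism of a closed connected manifold `M` with global product
structure (`GPS`: each stable path and each unstable path with the same initial point span a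
rectangle; for instance a hyperbolic automorphism of an infranilmanifold). Let `g` be an expansive
homeomorphism of a closed connected topological manifold `M'` with `dim M' ≤ dim M`, and let `h` be
a continuous map of `M` onto `M'` with `h ∘ f = g ∘ h`. Then the following are equivalent.
* `f` and `g` have the same topological entropy (`h_top(f) ≤ h_top(g)`; the opposite inequality
  always holds).
* There is a constant `C` with `#Fix(fⁿ) ≤ C · #Fix(gⁿ)` for infinitely many `n`.
* Every fibre of `h` is countable.
* `h` takes different values at two different points of `M` that are both forward and backward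
  asymptotic under `f`.
* `h` is a covering map.
* `h` is a covering map with finite fibres, and `g` is topologically transitive and has global
  product structure. -/
theorem result (E : Type*) [NormedAddCommGroup E] [NormedSpace ℝ E] [FiniteDimensional ℝ E]
    (M : Type*) [MetricSpace M] [CompactSpace M] [ConnectedSpace M]
    [ChartedSpace E M] [IsManifold 𝓘(ℝ, E) ∞ M] (f : Diffeomorph 𝓘(ℝ, E) 𝓘(ℝ, E) M M 1)
    (Es Eu : ∀ x : M, Submodule ℝ (TangentSpace 𝓘(ℝ, E) x)) (hf : IsAnosov f Es Eu)
    (hG : GPS f.toHomeomorph)
    (E' : Type*) [NormedAddCommGroup E'] [NormedSpace ℝ E'] [FiniteDimensional ℝ E']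
    (M' : Type*) [MetricSpace M'] [CompactSpace M'] [ConnectedSpace M'] [ChartedSpace E' M']
    (g : M' ≃ₜ M') (hg : Expansive g) (hdim : Module.finrank ℝ E' ≤ Module.finrank ℝ E)
    (h : C(M, M')) (hs : Function.Surjective h) (hfg : ∀ x, h (f x) = g (h x)) :
    List.TFAE [Dynamics.coverEntropy f univ ≤ Dynamics.coverEntropy g univ,
      ∃ C : ℕ, ∃ᶠ n in atTop, {x | f^[n] x = x}.ncard ≤ C * {y | g^[n] y = y}.ncard,
      ∀ y, (h ⁻¹' {y}).Countable,
      ∀ x y, h x = h y → Asym f x y → Asym f.symm x y → x = y,
      IsCoveringMap h,
      IsCoveringMap h ∧ (∀ y, (h ⁻¹' {y}).Finite) ∧ TopTransitive g ∧ GPS g] := by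
  have key := man_factor f Es Eu hf hG g hg hdim h h.continuous hs hfg
  have hT : TopTransitive g :=
    factor_transitive h.continuous hs hfg (man_self f Es Eu hf hG).1
  tfae_have 1 ↔ 5 := key.out 0 4
  tfae_have 2 ↔ 5 := key.out 1 4
  tfae_have 3 ↔ 5 := key.out 2 4
  tfae_have 4 ↔ 5 := key.out 3 4
  tfae_have 5 → 6 := fun h5 => by
    obtain ⟨h1, h2, h3⟩ := (key.out 4 5).1 h5
    exact ⟨h1, h2, hT, h3⟩
  tfae_have 6 → 5 := fun h6 => h6.1
  tfae_finish

end Pool.Agent.Results.MP_5c499f_an.EntropyFactors
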