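import Pool.Agent.Y331.EP.Trans
import Pool.Agent.V11108.TorExt

/-!
# MP_5c499f_an: extensions of toral automorphisms without loss of entropy are toral automorphisms

Let `f` be a `C¹` Anosov diffeomorphism of a closed connected manifold `M` which is semiconjugate,
by an arbitrary continuous surjection `h`, to a hyperbolic toral automorphism `g`, in dimension at
most `dim M`. If `f` is transitive and has the entropy of `g`, or comparable numbers of periodic
points, or if `h` has countable fibres, or boundedly many preimages in every homoclinic class, then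
`f` is topologically conjugate to a hyperbolic toral automorphism: to the one induced by the matrix
of `g` on the quotient of `ℝᵐ` by a subgroup of finite index of `ℤᵐ`.

From the starting files: `Pool.Agent.Y331.EP` (`man_over'`: under these conditions `h` is a finite
covering). New: `Pool.Agent.V11108.CovLift`, `Pool.Agent.V11108.TorExt` (lifting).
-/

set_option autoImplicit false

open scoped Manifold ContDiff Topology
open Set Filter

namespace Pool.Agent.Results.MP_5c499f_an.EntropyToral

open Pool.Agent.H721R2 Pool.Agent.H789R2.AN Pool.Agent.TH289 Pool.Agent.TH289.K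
open Pool.Agent.Y331.EP Pool.Agent.TH289.L

/-- The real vector with the integer coordinates `z`. -/
def vec {m : ℕ} (z : Fin m → ℤ) : Fin m → ℝ := fun i => (z i : ℝ)

/-- The linear map of `ℝᵐ` with the integer matrix `A`. -/
def lin {m : ℕ} (A : Matrix (Fin m) (Fin m) ℤ) (x : Fin m → ℝ) : Fin m → ℝ :=
  (A.map (Int.cast : ℤ → ℝ)).mulVec x

/-- `f` is topologically conjugate to the automorphism of the torus `ℝᵐ / Λ` induced by the integer
matrix `A`, where `Λ` is a subgroup of finite index of `ℤᵐ`: there is a covering map `P` of `X` by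
`ℝᵐ` with `f (P x) = P (A x)`, and `P x = P y` if and only if `y - x` is in `Λ`. -/
def ToralBy {X : Type*} [TopologicalSpace X] (f : X → X) {m : ℕ} (A : Matrix (Fin m) (Fin m) ℤ)
    (Λ : AddSubgroup (Fin m → ℤ)) : Prop :=
  Λ.FiniteIndex ∧ ∃ P : (Fin m → ℝ) → X, IsCoveringMap P ∧ Function.Surjective P ∧
    (∀ x, f (P x) = P (lin A x)) ∧ ∀ x y, P x = P y ↔ ∃ z ∈ Λ, y = x + vec z

/-- **Extensions of toral automorphisms without loss of entropy are toral automorphisms.**
Let `g` be a `C¹` Anosov diffeomorphism of a closed connected manifold `M'` with global product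
structure that is topologically conjugate to the automorphism of `ℝᵐ / ℤᵐ` induced by the integer
matrix `A` (so `g` is a hyperbolic toral automorphism up to conjugacy; these have global product
structure). Let `f` be a `C¹` Anosov diffeomorphism of a closed connected manifold `M` with
`dim M' ≤ dim M`, and `h` a continuous map of `M` onto `M'` with `h ∘ f = g ∘ h`. Suppose that one
of the following holds.
* `f` is topologically transitive and `h_top(f) ≤ h_top(g)`.
* `f` is topologically transitive and `#Fix(fⁿ) ≤ C · #Fix(gⁿ)` for some `C` and infinitely many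
  `n`.
* The fibres of `h` are countable.
* For some `B` and every `x`, at most `B` points that are both forward and backward asymptotic to
  `x` under `f` have the same image as `x`.

Then `f` is topologically conjugate to the automorphism induced by the same matrix `A` on the torus
`ℝᵐ / Λ` for some subgroup `Λ` of finite index of `ℤᵐ`. -/
theorem result (E : Type*) [NormedAddCommGroup E] [NormedSpace ℝ E] [FiniteDimensional ℝ E]
    (M : Type*) [MetricSpace M] [CompactSpace M] [ConnectedSpace M]
    [ChartedSpace E M] [IsManifold 𝓘(ℝ, E) ∞ M] (f : Diffeomorph 𝓘(ℝ, E) 𝓘(ℝ, E) M M 1)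
    (Es Eu : ∀ x : M, Submodule ℝ (TangentSpace 𝓘(ℝ, E) x)) (hf : IsAnosov f Es Eu)
    (E' : Type*) [NormedAddCommGroup E'] [NormedSpace ℝ E'] [FiniteDimensional ℝ E']
    (M' : Type*) [MetricSpace M'] [CompactSpace M'] [ConnectedSpace M']
    [ChartedSpace E' M'] [IsManifold 𝓘(ℝ, E') ∞ M'] (g : Diffeomorph 𝓘(ℝ, E') 𝓘(ℝ, E') M' M' 1)
    (Es' Eu' : ∀ x : M', Submodule ℝ (TangentSpace 𝓘(ℝ, E') x)) (hg : IsAnosov g Es' Eu')
    (hG : GPS g.toHomeomorph) (m : ℕ) (A : Matrix (Fin m) (Fin m) ℤ) (hgA : ToralBy g A ⊤)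
    (hdim : Module.finrank ℝ E' ≤ Module.finrank ℝ E)
    (h : C(M, M')) (hs : Function.Surjective h) (hfg : ∀ x, h (f x) = g (h x))
    (hcond : (TopTransitive f ∧
        Dynamics.coverEntropy f univ ≤ Dynamics.coverEntropy g univ) ∨
      (TopTransitive f ∧ ∃ C : ℕ, ∃ᶠ n in atTop,
        {x | f^[n] x = x}.ncard ≤ C * {y | g^[n] y = y}.ncard) ∨
      (∀ y, (h ⁻¹' {y}).Countable) ∨
      ∃ B : ℕ, ∀ x, {y | h y = h x ∧ Asym f x y ∧ Asym f.symm x y}.encard ≤ B) :
    ∃ Λ : AddSubgroup (Fin m → ℤ), ToralBy f A Λ := by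
  have key := man_over' f Es Eu hf g Es' Eu' hg hG hdim h h.continuous hs hfg
  have k1 := key.out 0 5
  have k2 := key.out 1 5
  have k3 := key.out 2 5
  have k4 := key.out 3 5
  have hcov : IsCoveringMap h ∧ (∀ y, (h ⁻¹' {y}).Finite) ∧ GPS f.toHomeomorph := by
    rcases hcond with h1 | h1 | h1 | h1
    · exact k1.1 h1
    · exact k2.1 h1
    · exact k3.1 h1
    · exact k4.1 h1
  obtain ⟨hc, hfin, -⟩ := hcov
  obtain ⟨-, q, hq, hqs, hqA, hqZ⟩ := hgA
  have hqZ' : ∀ x y, q x = q y ↔ ∃ z : Fin m → ℤ, y = x + Pool.Agent.V11108.TorExt.ι z := by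
    intro x y
    rw [hqZ]
    constructor
    · rintro ⟨z, -, hz⟩; exact ⟨z, hz⟩
    · rintro ⟨z, hz⟩; exact ⟨z, AddSubgroup.mem_top z, hz⟩
  have hexp : Expansive g.toHomeomorph := expansive_of_anosov g Es' Eu' hg
  obtain ⟨P, Λ, h1, h2, h3, h4, h5⟩ := Pool.Agent.V11108.TorExt.tor_ext (A := A) (f := f) (g := g)
    f.continuous hc hs hfin hfg hq hqs hqA hqZ'
    (Pool.Agent.V11108.TorExt.no_fixed (g := g.toHomeomorph) hexp hq.continuous hqA hqZ')
    (fun P hP => Pool.Agent.H789R2.GP.covering_surj hP)
  exact ⟨Λ, h5, P, h1, h2, h3, h4⟩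

end Pool.Agent.Results.MP_5c499f_an.EntropyToral
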