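import Pool.Agent.V1173.EX.Cov

/-!
# Expansive factors of Anosov diffeomorphisms with global product structure

Let `f` be an Anosov diffeomorphism with global product structure, for instance a hyperbolic
automorphism of an infranilmanifold, let `M'` be a closed connected TOPOLOGICAL manifold with
`dim M' ≤ dim M`, `g` any homeomorphism of `M'` and `h : M → M'` a continuous map with
`h ∘ f = g ∘ h`. We characterise when `h` is a finite covering map: it suffices that `g` is expansive
and that for ONE periodic point `p` of `f` only finitely many points of the fibre through `p` are
forward asymptotic to `p`, or only finitely many are backward asymptotic to `p`; conversely, if `h` is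
a covering map then `g` is expansive, and it is then topologically transitive and has global product
structure. No smooth or hyperbolic structure on `M'`, `g` is assumed.
-/

set_option autoImplicit false

open scoped Manifold ContDiff Topology
open Set Filter

namespace Pool.Agent.Results.MP_5c499f_an.ExpansiveFactors

open Pool.Agent.H721R2 Pool.Agent.H789R2.AN Pool.Agent.TH289 Pool.Agent.TH289.K

/-- **Expansive factors of Anosov diffeomorphisms with global product structure.**
Let `f` be a `C¹` Anosov diffeomorphism of a closed connected manifold `M` with global product
structure (`GPS`: each stable path and each unstable path with the same initial point span a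
rectangle; for instance a hyperbolic automorphism of an infranilmanifold). Let `g` be a homeomorphism
of a closed connected topological manifold `M'` with `dim M' ≤ dim M`, and let `h : M → M'` be
continuous with `h ∘ f = g ∘ h`. The following are equivalent.
* `g` is expansive and there is a periodic point `p` of `f` such that only finitely many points of the
  fibre `h⁻¹(h p)` are forward asymptotic to `p`, or only finitely many are backward asymptotic to `p`.
* `g` is expansive and all fibres of `h` are finite.
* `h` is locally injective.
* `h` is a covering map.
* `h` is a covering map of `M` onto `M'` with finite fibres, and `g` is expansive, topologically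
  transitive and has global product structure. -/
theorem result (E : Type*) [NormedAddCommGroup E] [NormedSpace ℝ E] [FiniteDimensional ℝ E]
    (M : Type*) [TopologicalSpace M] [T2Space M] [CompactSpace M] [ConnectedSpace M]
    [ChartedSpace E M] [IsManifold 𝓘(ℝ, E) ∞ M] (f : Diffeomorph 𝓘(ℝ, E) 𝓘(ℝ, E) M M 1)
    (Es Eu : ∀ x : M, Submodule ℝ (TangentSpace 𝓘(ℝ, E) x)) (hf : IsAnosov f Es Eu)
    (hG : GPS f.toHomeomorph)
    (E' : Type*) [NormedAddCommGroup E'] [NormedSpace ℝ E'] [FiniteDimensional ℝ E']
    (M' : Type*) [TopologicalSpace M'] [T2Space M'] [CompactSpace M'] [ConnectedSpace M']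
    [ChartedSpace E' M'] (hdim : Module.finrank ℝ E' ≤ Module.finrank ℝ E) (g : M' ≃ₜ M')
    (h : C(M, M')) (hfg : ∀ x, h (f x) = g (h x)) :
    List.TFAE [Expansive g ∧ ∃ p ∈ Function.periodicPts f,
        (h ⁻¹' {h p} ∩ {y | Asym f p y}).Finite ∨ (h ⁻¹' {h p} ∩ {y | Asym f.symm p y}).Finite,
      Expansive g ∧ ∀ y, (h ⁻¹' {y}).Finite,
      ∀ x, ∃ U ∈ 𝓝 x, InjOn h U,
      IsCoveringMap h,
      IsCoveringMap h ∧ Function.Surjective h ∧ (∀ y, (h ⁻¹' {y}).Finite) ∧ Expansive g ∧
        TopTransitive g ∧ GPS g] :=
  Pool.Agent.V1173.EX.main_ex f Es Eu hf hG g h h.continuous hfg hdim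

end Pool.Agent.Results.MP_5c499f_an.ExpansiveFactors
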